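import Mathlib
import Pool.Agent.U503.SPR.Stm
import Pool.Agent.R773.HN.Grp

set_option autoImplicit false

/-!
# Project SPR, package LIP (helper356)
-/

open Set Filter Topology Function
open Pool.Agent.Y453.HB

namespace Pool.Agent.U356.SPR

open Pool.Agent.R773.HN (nm D nm_nonneg nm_add nm_smul nm_sub_comm nm_cont nm_tri)

/-- a boundary point of the ball on the segment -/
lemma exists_bdry {n : ℕ} {x y q : E n} {ρ : ℝ} (hx : nm (x - q) ≤ ρ) (hy : ρ ≤ nm (y - q)) :
    ∃ p : E n, nm (p - q) = ρ ∧ nm (x - p) + nm (p - y) = nm (x - y) := by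
  have hc : Continuous fun t : ℝ => nm (x + t • (y - x) - q) :=
    nm_cont.comp ((continuous_const.add (continuous_id.smul continuous_const)).sub
      continuous_const)
  have h0 : ρ ∈ Set.Icc (nm (x + (0 : ℝ) • (y - x) - q)) (nm (x + (1 : ℝ) • (y - x) - q)) := by
    rw [zero_smul, add_zero, one_smul, add_sub_cancel]
    exact ⟨hx, hy⟩
  obtain ⟨t, ht, he⟩ := intermediate_value_Icc (zero_le_one' ℝ) hc.continuousOn h0
  refine ⟨x + t • (y - x), he, ?_⟩
  have e1 : x - (x + t • (y - x)) = t • (x - y) := by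
    rw [smul_sub, smul_sub]
    abel
  have e2 : x + t • (y - x) - y = (1 - t) • (x - y) := by
    rw [sub_smul, one_smul, smul_sub, smul_sub]
    abel
  rw [e1, e2, nm_smul, nm_smul, abs_of_nonneg ht.1, abs_of_nonneg (by linarith [ht.2])]
  ring

theorem t_LIP : Pool.Agent.U503.SPR.S_LIP := by
  intro n ι c ρ f C hC hρ hdis hL hfix
  -- boundary points are fixed
  have hb : ∀ i p, nm (p - c i) = ρ i → f p = p := by
    intro i p hp
    apply hfix
    intro j
    by_cases hij : i = j
    · rw [← hij, hp]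
    · have h1 : p ∈ D (c i) (ρ i) := hp.le
      have h2 : p ∉ D (c j) (ρ j) := Set.disjoint_left.1 (hdis i j hij) h1
      exact le_of_lt (not_le.1 h2)
  -- one point in a ball, the other fixed and outside
  have h1 : ∀ i x y, nm (x - c i) ≤ ρ i → ρ i ≤ nm (y - c i) → f y = y →
      nm (f x - f y) ≤ C * nm (x - y) := by
    intro i x y hx hy hfy
    obtain ⟨p, hp, hs⟩ := exists_bdry hx hy
    have e1 := hL i x p hx hp.le
    rw [hb i p hp] at e1
    have e2 := nm_tri (f x) p (f y)
    rw [hfy] at e2 ⊢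
    have e3 := nm_nonneg (p - y)
    nlinarith
  intro x y
  by_cases hx : ∃ i, nm (x - c i) ≤ ρ i
  · obtain ⟨i, hi⟩ := hx
    by_cases hy : ∃ j, nm (y - c j) ≤ ρ j
    · obtain ⟨j, hj⟩ := hy
      by_cases hij : i = j
      · subst hij
        exact hL i x y hi hj
      · have hyi : y ∉ D (c i) (ρ i) := Set.disjoint_right.1 (hdis i j hij) hj
        obtain ⟨p, hp, hs⟩ := exists_bdry hi (le_of_lt (not_le.1 hyi))
        have hpj : p ∉ D (c j) (ρ j) := Set.disjoint_left.1 (hdis i j hij) hp.le
        have e1 := hL i x p hi hp.le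
        have e2 := h1 j y p hj (le_of_lt (not_le.1 hpj)) (hb i p hp)
        have e3 := nm_tri (f x) (f p) (f y)
        rw [nm_sub_comm (f y) (f p), nm_sub_comm y p] at e2
        rw [← hs, mul_add]
        linarith
    · push Not at hy
      exact h1 i x y hi (hy i).le (hfix y fun j => (hy j).le)
  · push Not at hx
    have hfx : f x = x := hfix x fun j => (hx j).le
    by_cases hy : ∃ j, nm (y - c j) ≤ ρ j
    · obtain ⟨j, hj⟩ := hy
      have e := h1 j y x hj (hx j).le hfx
      rw [nm_sub_comm (f y) (f x), nm_sub_comm y x] at e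
      exact e
    · push Not at hy
      have hfy : f y = y := hfix y fun j => (hy j).le
      rw [hfx, hfy]
      have := nm_nonneg (x - y)
      nlinarith

end Pool.Agent.U356.SPR
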